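import Pool.Agent.N630.EFG.Main
import Pool.Agent.N630.EFG.Exist

/-!
# A countable elementary free group that is not the union of a chain of finitely generated
elementary free groups

The group is a countable elementary subgroup of an ultrapower of `F₂` that contains two commuting
independent elements. A finitely generated elementary free group contains no such pair: it is fully
residually free (free groups are equationally Noetherian), and its centralizers are cyclic modulo
`N`-th powers for every `N`.
-/

set_option autoImplicit false

namespace Pool.Agent.Results.MP_7bc825_lc.NotUnionOfChain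

open Pool.Agent.N630.EFG

/-- `G` is an elementary free group: it satisfies the same sentences of the first-order language of
groups as the free group of rank two. -/
def ElementaryFree (G : Type) [Group G] : Prop := ElemEquiv G (FreeGroup (Fin 2))

/-- There is a countable elementary free group that is not the union of any chain of finitely
generated subgroups each of which is an elementary free group. -/
theorem result : ∃ (G : Type) (_ : Group G), Countable G ∧ ElementaryFree G ∧
    ∀ C : Set (Subgroup G), IsChain (· ≤ ·) C → (∀ H ∈ C, H.FG ∧ ElementaryFree H) →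
      (⋃ H ∈ C, (H : Set G)) ≠ Set.univ := by
  obtain ⟨G, hG, a, b, hc, hE, hab, hind⟩ := exists_group
  refine ⟨G, hG, hc, hE, fun C hC hH hU => ?_⟩
  have key : ∀ H ∈ C, a ∈ H → b ∈ H → False := by
    intro H hHC ha hb
    have : Group.FG H := (Group.fg_iff_subgroup_fg H).2 (hH H hHC).1
    obtain ⟨m, n, hmn, h⟩ := dependent (hH H hHC).2 ⟨a, ha⟩ ⟨b, hb⟩ (Subtype.ext hab)
    have h1 : a ^ m * b ^ n = 1 := congrArg Subtype.val h
    obtain ⟨rfl, rfl⟩ := hind m n h1
    simp at hmn
  have ha : a ∈ ⋃ H ∈ C, (H : Set G) := by rw [hU]; trivial
  have hb : b ∈ ⋃ H ∈ C, (H : Set G) := by rw [hU]; trivial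
  simp only [Set.mem_iUnion, SetLike.mem_coe, exists_prop] at ha hb
  obtain ⟨H, hHC, haH⟩ := ha
  obtain ⟨K, hKC, hbK⟩ := hb
  rcases hC.total hHC hKC with h | h
  · exact key K hKC (h haH) hbK
  · exact key H hHC haH (h hbK)

end Pool.Agent.Results.MP_7bc825_lc.NotUnionOfChain
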